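import Pool.Agent.V11177.ConfF

namespace Pool.Agent.Results.MP_ac1762_co.SmallDim

open Pool.Agent.V11177.Conf Module

variable {n m : ℕ} {C : Config n}

/-- lifted vectors -/
noncomputable def lift (ρ : GeomRep C m) (p : Fin n) : EuclideanSpace ℝ (Fin m) × ℝ :=
  (ρ.pt p, 1)

lemma lift_rep (ρ : GeomRep C m) : LRep C (lift ρ) := by
  refine ⟨?_, ?_, ?_⟩
  · intro p q hpq r h
    unfold lift at h
    rw [Prod.ext_iff] at h
    simp only [Prod.smul_mk, smul_eq_mul, mul_one] at h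
    obtain ⟨h1, h2⟩ := h
    rw [← h2, one_smul] at h1
    exact hpq (ρ.inj h1)
  · intro l hl a ha b hb c hc hab
    have hdir := (ρ.straight l hl).2
    have ha' := (ρ.inc l hl a).2 ha
    have hb' := (ρ.inc l hl b).2 hb
    have hc' := (ρ.inc l hl c).2 hc
    have h1 : ρ.pt b - ρ.pt a ∈ (ρ.line l).direction :=
      AffineSubspace.vsub_mem_direction hb' ha'
    have h2 : ρ.pt c - ρ.pt a ∈ (ρ.line l).direction :=
      AffineSubspace.vsub_mem_direction hc' ha'
    have h3 : (⟨ρ.pt b - ρ.pt a, h1⟩ : (ρ.line l).direction) ≠ 0 := by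
      intro h
      rw [Submodule.mk_eq_zero, sub_eq_zero] at h
      exact hab (ρ.inj h).symm
    obtain ⟨t, ht⟩ := (finrank_eq_one_iff_of_nonzero' _ h3).1 hdir ⟨ρ.pt c - ρ.pt a, h2⟩
    have ht' : t • (ρ.pt b - ρ.pt a) = ρ.pt c - ρ.pt a := by
      have := congrArg Subtype.val ht
      simpa using this
    refine ⟨1 - t, t, ?_⟩
    unfold lift
    rw [Prod.ext_iff]
    constructor
    · have : ρ.pt c = t • (ρ.pt b - ρ.pt a) + ρ.pt a := by rw [ht']; abel
      simp only [Prod.smul_mk, Prod.mk_add_mk]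
      rw [this]
      module
    · simp
  · intro l hl a ha b hb d α β h
    unfold lift at h
    rw [Prod.ext_iff] at h
    simp only [Prod.smul_mk, smul_eq_mul, mul_one, Prod.mk_add_mk] at h
    obtain ⟨h1, h2⟩ := h
    rw [← ρ.inc l hl d]
    have h3 : ρ.pt d = AffineMap.lineMap (ρ.pt a) (ρ.pt b) β := by
      rw [AffineMap.lineMap_apply_module, h1]
      congr 2
      linarith
    rw [h3]
    exact AffineMap.lineMap_mem β ((ρ.inc l hl a).2 ha) ((ρ.inc l hl b).2 hb)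

lemma lift_dim (ρ : GeomRep C m) (hn : 0 < n) :
    finrank ℝ (affineSpan ℝ (Set.range ρ.pt)).direction + 1 ≤
      finrank ℝ (Submodule.span ℝ (Set.range (lift ρ))) := by
  rw [direction_affineSpan, vectorSpan_def]
  set K := Submodule.span ℝ (Set.range ρ.pt -ᵥ Set.range ρ.pt) with hK
  set S := Submodule.span ℝ (Set.range (lift ρ)) with hS
  have h1 : K.map (LinearMap.inl ℝ (EuclideanSpace ℝ (Fin m)) ℝ) ≤ S := by
    rw [Submodule.map_le_iff_le_comap, hK, Submodule.span_le]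
    rintro x ⟨_, ⟨p, rfl⟩, _, ⟨q, rfl⟩, rfl⟩
    have h2 : lift ρ p - lift ρ q ∈ S :=
      S.sub_mem (Submodule.subset_span ⟨p, rfl⟩) (Submodule.subset_span ⟨q, rfl⟩)
    have h3 : lift ρ p - lift ρ q =
        (LinearMap.inl ℝ (EuclideanSpace ℝ (Fin m)) ℝ) (ρ.pt p - ρ.pt q) := by
      unfold lift
      simp
    rw [h3] at h2
    exact h2
  have h2 : K.map (LinearMap.inl ℝ (EuclideanSpace ℝ (Fin m)) ℝ) < S := by
    refine lt_of_le_of_ne h1 ?_
    intro heq
    have h3 : lift ρ ⟨0, hn⟩ ∈ S := Submodule.subset_span ⟨_, rfl⟩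
    rw [← heq, Submodule.mem_map] at h3
    obtain ⟨y, _, hy⟩ := h3
    unfold lift at hy
    rw [Prod.ext_iff] at hy
    simp at hy
  have h3 := Submodule.finrank_lt_finrank_of_lt h2
  have h4 := (Submodule.equivMapOfInjective (LinearMap.inl ℝ (EuclideanSpace ℝ (Fin m)) ℝ)
    LinearMap.inl_injective K).finrank_eq
  omega

lemma upper (hn : 0 < n) (hn' : n ≤ 14) {d : ℕ} (hd : d ∈ dims C) : d ≤ 3 := by
  obtain ⟨m, ρ, hρ⟩ := hd
  by_contra hlt
  push Not at hlt
  have h1 := lift_dim ρ hn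
  rw [hρ] at h1
  exact core (lift_rep ρ) hn hn' (by omega)

lemma eq_span {E : Type*} [AddCommGroup E] [Module ℝ E] [FiniteDimensional ℝ E]
    {K : Submodule ℝ E} (hK : finrank ℝ K ≤ 1) {x : E} (hx : x ∈ K) (hx0 : x ≠ 0) :
    Submodule.span ℝ {x} = K := by
  apply Submodule.eq_of_le_of_finrank_le
  · rw [Submodule.span_singleton_le_iff_mem]
    exact hx
  · rw [finrank_span_singleton hx0]
    exact hK

lemma lower (hn : 0 < n) {d : ℕ} (hd : d ∈ dims C) : 2 ≤ d := by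
  obtain ⟨m, ρ, hρ⟩ := hd
  by_contra hlt
  push Not at hlt
  have hdeg := C.deg ⟨0, hn⟩
  set p : Fin n := ⟨0, hn⟩ with hp
  obtain ⟨l, hl, l', hl', hne⟩ := Finset.one_lt_card.1
    (show 1 < (C.lines.filter (fun l => p ∈ l)).card by omega)
  obtain ⟨hl, hpl⟩ := Finset.mem_filter.1 hl
  obtain ⟨hl', hpl'⟩ := Finset.mem_filter.1 hl'
  have key : ∀ l ∈ C.lines, p ∈ l → ρ.line l = affineSpan ℝ (Set.range ρ.pt) := by
    intro l hl hpl
    have hcard := C.card_line l hl
    obtain ⟨a, ha, hap⟩ := Finset.exists_mem_ne (show 1 < l.card by omega) p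
    have ha' := (ρ.inc l hl a).2 ha
    have hp' := (ρ.inc l hl p).2 hpl
    have hpS : ρ.pt p ∈ affineSpan ℝ (Set.range ρ.pt) := mem_affineSpan ℝ ⟨p, rfl⟩
    have haS : ρ.pt a ∈ affineSpan ℝ (Set.range ρ.pt) := mem_affineSpan ℝ ⟨a, rfl⟩
    have h0 : ρ.pt a -ᵥ ρ.pt p ≠ 0 := by
      rw [vsub_ne_zero]
      exact fun h => hap (ρ.inj h)
    have h1 := AffineSubspace.vsub_mem_direction ha' hp'
    have h2 := AffineSubspace.vsub_mem_direction haS hpS
    have e1 := eq_span (ρ.straight l hl).2.le h1 h0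
    have e2 := eq_span (by rw [hρ]; omega) h2 h0
    apply AffineSubspace.ext_of_direction_eq (by rw [← e1, ← e2])
    exact ⟨ρ.pt p, hp', hpS⟩
  exact hne (ρ.distinct l hl l' hl' (by rw [key l hl hpl, key l' hl' hpl']))

/-- Every realizable (n_3) configuration with n at most 14 has dimension 2 or 3. -/
theorem result (n : ℕ) (hn : 0 < n) (hn' : n ≤ 14) (C : Config n) (hC : Realizable C) :
    HasDimension C 2 ∨ HasDimension C 3 := by
  obtain ⟨m, ⟨ρ⟩⟩ := hC
  have hρ : finrank ℝ (affineSpan ℝ (Set.range ρ.pt)).direction ∈ dims C := ⟨m, ρ, rfl⟩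
  by_cases h3 : 3 ∈ dims C
  · right
    exact ⟨h3, fun d hd => upper hn hn' hd⟩
  · left
    have h2 : ∀ d ∈ dims C, d = 2 := by
      intro d hd
      have h4 := upper hn hn' hd
      have h5 := lower hn hd
      have h6 : d ≠ 3 := fun h => h3 (h ▸ hd)
      omega
    refine ⟨?_, fun d hd => (h2 d hd).le⟩
    rw [← h2 _ hρ]
    exact hρ

end Pool.Agent.Results.MP_ac1762_co.SmallDim
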